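import Mathlib
import Pool.Agent.V11234.MonoModal

/-!
# MP_5daced_lc, Q1: directed bisimulations and positivity on finite neighborhood frames
-/

set_option autoImplicit false

namespace Pool.Agent.Results.MP_5daced_lc.FinitePositivity

open Pool.Agent.V11234.MonoModal

/-- Two formulas are equivalent in the frame `F` if they have the same truth set under every
valuation on `F`. -/
def EquivIn {W : Type} (F : Frame W) (φ ψ : Fml ℕ) : Prop :=
  ∀ θ : ℕ → Set W, eval F θ φ = eval F θ ψ

theorem main {W : Type} [Finite W] (F : Frame W) (S : Set ℕ) (φ : Fml ℕ)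
    (h : ∀ (θ₁ θ₂ : ℕ → Set W) (Z : W → W → Prop), IsBisim F F Z → Directed S θ₁ θ₂ Z →
      Preserves F F θ₁ θ₂ Z φ) : ∃ α, Positive S α ∧ EquivIn F φ α := by
  classical
  let _ := Fintype.ofFinite W
  let K := {p // p ∈ vars φ} → Set W
  let v : K → ℕ → Set W := fun κ p => if hp : p ∈ vars φ then κ ⟨p, hp⟩ else ∅
  let I := K × W
  let _ : Fintype K := Fintype.ofFinite K
  let _ : Fintype I := Fintype.ofFinite I
  have hsep : ∀ i j : I, ∃ ψ, Positive S ψ ∧
      (i.2 ∈ eval F (v i.1) φ → j.2 ∉ eval F (v j.1) φ →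
        i.2 ∈ eval F (v i.1) ψ ∧ j.2 ∉ eval F (v j.1) ψ) := by
    intro i j
    by_cases hs : Sim S F F (v i.1) (v j.1) i.2 j.2
    · refine ⟨.top, trivial, fun h1 h2 => absurd ?_ h2⟩
      obtain ⟨hb, hd⟩ := sim_bisim S F F (v i.1) (v j.1)
      exact h _ _ _ hb hd ⟨i.2, h1, hs⟩
    · unfold Sim at hs
      push Not at hs
      obtain ⟨ψ, h1, h2, h3⟩ := hs
      exact ⟨ψ, h1, fun _ _ => ⟨h2, h3⟩⟩
  choose ψ hψ1 hψ2 using hsep
  let α₀ : Fml ℕ := iOr fun i : I => if i.2 ∈ eval F (v i.1) φ then
    iAnd (fun j : I => if j.2 ∈ eval F (v j.1) φ then .top else ψ i j) else .bot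
  have hα₀ : Positive S α₀ := by
    refine positive_iOr fun i => ?_
    split_ifs
    · refine positive_iAnd fun j => ?_
      split_ifs
      · trivial
      · exact hψ1 i j
    · trivial
  have heval : ∀ κ : K, eval F (v κ) φ = eval F (v κ) α₀ := by
    intro κ
    ext w
    rw [mem_iOr]
    constructor
    · intro hw
      refine ⟨(κ, w), ?_⟩
      rw [if_pos hw, mem_iAnd]
      intro j
      split_ifs with hj
      · exact Set.mem_univ w
      · exact (hψ2 (κ, w) j hw hj).1
    · rintro ⟨i, hi⟩
      split_ifs at hi with hφ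
      · rw [mem_iAnd] at hi
        have := hi (κ, w)
        by_contra hcon
        rw [if_neg hcon] at this
        exact (hψ2 i (κ, w) hφ hcon).2 this
      · exact hi.elim
  refine ⟨cut (vars φ) α₀, positive_cut hα₀, fun θ => ?_⟩
  rw [eval_cut, ← eval_res F θ φ]
  have hres : res (vars φ) θ = v (fun p => θ p.1) := by
    funext p
    simp only [res, v]
    split_ifs <;> rfl
  rw [hres]
  exact heval (fun p => θ p.1)

/-- For every finite neighborhood frame `F`, every set `S` of variables (in particular the set of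
members of a finite tuple) and every formula `φ`: `φ` is equivalent in `F` to some `S`-positive
formula if and only if `φ` is preserved under every `S`-directed bisimulation between any two
models on `F`. -/
theorem result (W : Type) [Finite W] (F : Frame W) (S : Set ℕ) (φ : Fml ℕ) :
    (∃ α, Positive S α ∧ EquivIn F φ α) ↔
      ∀ (θ₁ θ₂ : ℕ → Set W) (Z : W → W → Prop), IsBisim F F Z → Directed S θ₁ θ₂ Z →
        Preserves F F θ₁ θ₂ Z φ := by
  refine ⟨?_, main F S φ⟩
  rintro ⟨α, hα, heq⟩ θ₁ θ₂ Z hZ hd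
  unfold Preserves
  rw [heq θ₁, heq θ₂]
  exact preserves_positive hZ hd α hα

end Pool.Agent.Results.MP_5daced_lc.FinitePositivity
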